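import Pool.Agent.H9.CA.Tool
import Pool.Agent.H68.SF.LAll

/-! # MP_ceca85_lc, part D, module DQ: inaccessibility goes down to constructible inner models -/

open Ordinal Cardinal Order Set
open scoped ZFSet

namespace CAA

open SF SF.H68

/-- bound for the levels of the constructible elements of a set -/
private theorem dq_bound (M : V → Prop) (a c : V) (θ : Ordinal.{0}) (k : ZFm M) (ha : M a)
    (hc : M c) (hθ : ∀ α : Ordinal.{0}, M α.toZFSet ↔ α < θ) :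
    ∃ ρ₀ < θ, ∀ x ∈ c, (∃ ρ < θ, x ∈ LA a ρ) → x ∈ LA a ρ₀ := by
  have hR0 : Dfb ZFm (fun _ v => v 1 ∈ Lh ∅ (v 2) (v 0).rank) := by
    have h1 : Tm ZFm (fun (_ : V → Prop) (v : ℕ → V) => Lh ∅ (v 2) (v 0).rank) :=
      Tm.at3 (F := fun _ x y z => Lh x y z.rank) aLHT Tm.empty (Tm.var 2) (Tm.var 0)
    exact Dfb.mem (Tm.var 1) h1
  have hR1 : Dfb ZFm (fun M v => ∃ y, M y ∧ v 1 ∈ Lh ∅ (v 2) y.rank) := by
    have h1 : Tm ZFm (fun (_ : V → Prop) (v : ℕ → V) => Lh ∅ (v 3) (v 0).rank) :=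
      Tm.at3 (F := fun _ x y z => Lh x y z.rank) aLHT Tm.empty (Tm.var 3) (Tm.var 0)
    exact Dfb.ex (R := fun _ v => v 2 ∈ Lh ∅ (v 3) (v 0).rank) (Dfb.mem (Tm.var 2) h1)
  obtain ⟨φ, hφ⟩ := hR0.or hR1.not
  have hv : In M (fun _ : ℕ => a) := fun _ => ha
  obtain ⟨b, hb, hb2⟩ := k.coll φ (fun _ => a) c hv hc (by
    intro x hx
    have hxM := k.trans _ hc x hx
    by_cases h : ∃ y, M y ∧ x ∈ Lh ∅ a y.rank
    · obtain ⟨y, hy, hxy⟩ := h
      exact ⟨y, hy, (hφ M k _ ((hv.cons hxM).cons hy)).2 (Or.inl hxy)⟩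
    · exact ⟨a, ha, (hφ M k _ ((hv.cons hxM).cons ha)).2 (Or.inr h)⟩)
  have hrk : M b.rank.toZFSet := aRKT.1 M k (fun _ => b) (fun _ => hb)
  refine ⟨b.rank, (hθ _).1 hrk, ?_⟩
  rintro x hx ⟨ρ, hρ, hxρ⟩
  obtain ⟨y, hy, hxy⟩ := hb2 x hx
  have hxM := k.trans _ hc x hx
  have hyM := k.trans _ hb y hy
  rcases (hφ M k _ ((hv.cons hxM).cons hyM)).1 hxy with h | h
  · exact Lh_mono (ZFSet.rank_lt_of_mem hy).le h
  · exfalso
    apply h
    refine ⟨ρ.toZFSet, (hθ ρ).2 hρ, ?_⟩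
    show x ∈ Lh ∅ a (ρ.toZFSet).rank
    rw [Ordinal.rank_toZFSet]
    exact hxρ

theorem pf_DQ (hDU : T_DU) (hDI : T_DI) : T_DQ := by
  classical
  intro M a κ θ hM ha hθ haθ hI
  obtain ⟨hlim, hsub, hB0, hord, hB1⟩ := hDU M a θ hM.toZFm ha hθ
  have hB : ZFCm (· ∈ LA a θ) := (hB1 fun x hx => hB0.trans _ haθ x hx).2
  have k := hM.toZFm
  refine ⟨(hord κ).2 ((hθ κ).1 hI.mem), hI.unc, ?_, ?_⟩
  · intro l hl f hf hfun
    exact hI.reg l hl f (hsub f hf) hfun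
  · intro l hl
    obtain ⟨τ, hτ, f0, hf0, hall⟩ := hI.str l hl
    have hκθ : κ < θ := (hθ κ).1 hI.mem
    have hlM : M l.toZFSet := (hθ l).2 (hl.trans hκθ)
    have hτM : M τ.toZFSet := (hθ τ).2 (hτ.trans hκθ)
    -- the image
    have hc : M (imS τ.toZFSet fun ξ => app f0 ξ) := by
      have h1 : Tm ZFm (fun (_ : V → Prop) (v : ℕ → V) => imS (v 0) fun ξ => app (v 1) ξ) :=
        Tm.image (f := fun _ v => v 0) (g := fun _ v => app (v 2) (v 0)) (Tm.var 0)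
          (Tm.app (Tm.var 2) (Tm.var 0))
      exact h1.1 M k (fun i => if i = 0 then τ.toZFSet else f0) (fun i => by
        by_cases hi : i = 0
        · simp only [hi, if_true]; exact hτM
        · simp only [hi, if_false]; exact hf0)
    obtain ⟨ρ₀, hρ₀, hbd⟩ := dq_bound M a _ θ k ha hc hθ
    -- the set of the constructible subsets of `l`
    have hLB : LA a ρ₀ ∈ LA a θ := Lh_mem hρ₀
    have hlB : l.toZFSet ∈ LA a θ := (hord l).2 (hl.trans hκθ)
    have hsB : (LA a ρ₀).sep (fun x => x ⊆ l.toZFSet) ∈ LA a θ := by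
      have h1 : Tm ZFm (fun (_ : V → Prop) (v : ℕ → V) => (v 0).sep fun x => x ⊆ v 1) :=
        Tm.sep (f := fun _ v => v 0) (R := fun _ v => v 0 ⊆ v 2)
          (Dfb.subset (Tm.var 0) (Tm.var 2)) (Tm.var 0)
      exact h1.1 (· ∈ LA a θ) hB0 (fun i => if i = 0 then LA a ρ₀ else l.toZFSet) (fun i => by
        by_cases hi : i = 0
        · simp only [hi, if_true]; exact hLB
        · simp only [hi, if_false]; exact hlB)
    set s : V := (LA a ρ₀).sep (fun x => x ⊆ l.toZFSet) with hs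
    have hmem : ∀ x, x ∈ LA a θ → x ⊆ l.toZFSet → x ∈ s := by
      intro x hx hxl
      rw [hs, ZFSet.mem_sep]
      refine ⟨?_, hxl⟩
      obtain ⟨ξ, hξ, hxe⟩ := hall x (hsub x hx) hxl
      refine hbd x ?_ ?_
      · rw [mem_imS]
        exact ⟨ξ.toZFSet, Ordinal.toZFSet_mem_toZFSet_iff.2 hξ, hxe⟩
      · obtain ⟨β, hβ, hxβ⟩ := (mem_Lh_limit hlim).1 hx
        exact ⟨β, hβ, hxβ⟩
    have hsne : s.Nonempty := by
      refine ⟨∅, hmem ∅ hB0.mempty ?_⟩
      intro z hz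
      exact absurd hz (ZFSet.notMem_empty z)
    obtain ⟨ρ, f, g, hf, hg, hfo, hgo⟩ := hDI (· ∈ LA a θ) hB s hsB hsne
    have hρκ : ρ < κ := by
      by_contra hcon
      push Not at hcon
      -- a function from `τ` to `κ`
      have hgM : M g := hsub g hg
      have hG : Tm ZFm (fun (_ : V → Prop) (v : ℕ → V) => resS (v 0) fun ξ =>
          (app (v 1) (app (v 2) ξ)).sep fun _ => app (v 1) (app (v 2) ξ) ∈ v 3) := by
        refine Tm.resS (f := fun _ v => v 0) (g := fun _ v =>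
          (app (v 2) (app (v 3) (v 0))).sep fun _ => app (v 2) (app (v 3) (v 0)) ∈ v 4)
          (Tm.var 0) ?_
        refine Tm.sep (f := fun _ v => app (v 2) (app (v 3) (v 0)))
          (R := fun _ v => app (v 3) (app (v 4) (v 1)) ∈ v 5) ?_ ?_
        · exact Dfb.mem (Tm.app (Tm.var 3) (Tm.app (Tm.var 4) (Tm.var 1))) (Tm.var 5)
        · exact Tm.app (Tm.var 2) (Tm.app (Tm.var 3) (Tm.var 0))
      have hGM := hG.1 M k (fun i => match i with
        | 0 => τ.toZFSet | 1 => g | 2 => f0 | _ + 3 => κ.toZFSet) (fun i => by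
          match i with
          | 0 => exact hτM
          | 1 => exact hgM
          | 2 => exact hf0
          | i + 3 => exact hI.mem)
      change M (resS τ.toZFSet fun ξ => (app g (app f0 ξ)).sep fun _ =>
        app g (app f0 ξ) ∈ κ.toZFSet) at hGM
      have hval : ∀ ξ : V, app g (app f0 ξ) ∈ κ.toZFSet → ((app g (app f0 ξ)).sep fun _ =>
          app g (app f0 ξ) ∈ κ.toZFSet) = app g (app f0 ξ) := by
        intro ξ h
        ext z
        rw [ZFSet.mem_sep]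
        exact ⟨fun h => h.1, fun h' => ⟨h', h⟩⟩
      have hval0 : ∀ ξ : V, app g (app f0 ξ) ∉ κ.toZFSet → ((app g (app f0 ξ)).sep fun _ =>
          app g (app f0 ξ) ∈ κ.toZFSet) = ∅ := by
        intro ξ h
        ext z
        rw [ZFSet.mem_sep]
        exact ⟨fun h' => absurd h'.2 h, fun h' => absurd h' (ZFSet.notMem_empty z)⟩
      have h0κ : (∅ : V) ∈ κ.toZFSet := by
        have : (0 : Ordinal.{0}).toZFSet ∈ κ.toZFSet :=
          Ordinal.toZFSet_mem_toZFSet_iff.2 (lt_trans omega0_pos hI.unc)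
        rwa [Ordinal.toZFSet_zero] at this
      obtain ⟨γ, hγ, hγb⟩ := hI.reg τ hτ _ hGM (isFunc_resS _ _ _ (by
        intro ξ _
        by_cases h : app g (app f0 ξ) ∈ κ.toZFSet
        · rw [hval ξ h]; exact h
        · rw [hval0 ξ h]; exact h0κ))
      have hγρ : γ.toZFSet ∈ ρ.toZFSet :=
        Ordinal.toZFSet_mem_toZFSet_iff.2 (hγ.trans_le hcon)
      obtain ⟨x, hx, hxg⟩ := hgo.2 _ hγρ
      have hxs := ZFSet.mem_sep.1 (hs ▸ hx)
      have hxB : x ∈ LA a θ := hB0.trans _ hsB x hx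
      obtain ⟨ξ, hξ, hxe⟩ := hall x (hsub x hxB) hxs.2
      have h1 := hγb ξ hξ
      rw [app_resS (Ordinal.toZFSet_mem_toZFSet_iff.2 hξ), hxe,
        app_eq (svl_of_isFunc hgo.1) hxg] at h1
      have h2 : (γ.toZFSet.sep fun _ => γ.toZFSet ∈ κ.toZFSet) = γ.toZFSet := by
        ext z
        rw [ZFSet.mem_sep]
        exact ⟨fun h => h.1, fun h' => ⟨h', Ordinal.toZFSet_mem_toZFSet_iff.2 hγ⟩⟩
      rw [h2] at h1
      exact ZFSet.mem_irrefl _ h1
    refine ⟨ρ, hρκ, f, hf, fun x hx hxl => ?_⟩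
    obtain ⟨ξ, hξ, hξf⟩ := hfo.2 x (hmem x hx hxl)
    obtain ⟨ξ', hξ', rfl⟩ := Ordinal.mem_toZFSet_iff.1 hξ
    exact ⟨ξ', hξ', app_eq (svl_of_isFunc hfo.1) hξf⟩

end CAA
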