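import Pool.Agent.H9.CA.TarG
import Pool.Agent.H7.SF.ReflS

/-! # MP_ceca85_lc, part S, module SB: consecutive heights of models -/

open Ordinal Cardinal Order Set
open scoped ZFSet

namespace CAA

open SF

private noncomputable def sbR (_ : V → Prop) (v : ℕ → V) : Prop :=
  v 1 ∈ v 0 ∧ ZFm (· ∈ LAS ∅ (v 0))

private theorem dfb_sbR : Dfb ZFm sbR :=
  (Dfb.mem (Tm.var 1) (Tm.var 0)).and (Dfb.zfm (Tm.LAS Tm.empty (Tm.var 0)))

theorem pf_SB : T_SB := by
  intro z t hz ht htz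
  have hord : ∀ α < z, α.toZFSet ∈ LA ∅ z := fun α h =>
    ord_mem_Lh (fun x hx => absurd hx (ZFSet.notMem_empty x)) h
  have hit : ∀ n, it (lea sbR) (fun _ v => v 0) (· ∈ LA ∅ z) (fun _ => (t 0).toZFSet) n =
      (t n).toZFSet := by
    intro n
    induction n with
    | zero => rfl
    | succ n ih =>
      show lea sbR (· ∈ LA ∅ z) (cons (it (lea sbR) (fun _ v => v 0) (· ∈ LA ∅ z)
        (fun _ => (t 0).toZFSet) n) fun _ => (t 0).toZFSet) = _
      rw [ih]
      obtain ⟨β, h1, h2, h3, h4, h5⟩ := lea_spec (R := sbR) (M := (· ∈ LA ∅ z))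
        (v := cons (t n).toZFSet fun _ => (t 0).toZFSet) (α := t (n + 1))
        (hord _ (htz (n + 1))) (by
          refine ⟨Ordinal.toZFSet_mem_toZFSet_iff.2 (ht n).2.1, ?_⟩
          show ZFm (· ∈ LAS ∅ (t (n + 1)).toZFSet)
          rw [LAS_ord]
          exact (ht (n + 1)).1)
      rw [h2]
      have h6 : t n < β := Ordinal.toZFSet_mem_toZFSet_iff.1 h4
      have h7 : ZFm (· ∈ LA ∅ β) := by
        have h8 : ZFm (· ∈ LAS ∅ β.toZFSet) := h5
        rwa [LAS_ord] at h8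
      rcases h1.lt_or_eq with h | h
      · exact absurd h7 ((ht n).2.2 β h6 h)
      · rw [h]
  have hs : Tm ZFm (fun M v => resS om fun x =>
      it (lea sbR) (fun _ v => v 0) M v (nn x)) :=
    Tm.resS (f := fun _ _ => om) (g := fun M v => it (lea sbR) (fun _ v => v 0) M
      (fun i => v (i + 1)) (nn (v 0))) Tm.om (tm_it (Tm.lea dfb_sbR) (Tm.var 0))
  refine ⟨_, hs.1 (· ∈ LA ∅ z) hz (fun _ => (t 0).toZFSet) (fun _ => hord _ (htz 0)),
    svl_resS _ _, dm_resS _ _, fun n => ?_⟩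
  rw [app_resS (nS_mem_om n), nn_nS]
  exact hit n

end CAA
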