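import Pool.Agent.H9.CA.TarG
import Pool.Agent.H68.SF.LAll

/-! # MP_ceca85_lc, part S, module SD: the collapses of the hulls -/

open Ordinal Cardinal Order Set
open scoped ZFSet

namespace CAA

open SF SF.H68

private theorem sd_rank {P f : V} (hup : ∀ u ∈ P, ∀ y, y ∈ u ↔ y ∈ P ∧ app f y ∈ app f u)
    (u : V) (hu : u ∈ P) : u.rank ≤ (app f u).rank := by
  induction u using ZFSet.inductionOn with
  | _ u ih =>
    rw [ZFSet.rank_le_iff]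
    intro y hy
    obtain ⟨h1, h2⟩ := (hup u hu y).1 hy
    exact (ih y hy h1).trans_lt (ZFSet.rank_lt_of_mem h2)

private theorem sd_clp (hDJ : T_DJ) {X N N' : V} (hN : N.IsTransitive) (hNN : N ⊆ N') (x : V)
    (hx : x ∈ N) : clp (X ∩ N') x = clp (X ∩ N) x := by
  induction x using ZFSet.inductionOn with
  | _ x ih =>
    ext y
    rw [hDJ.1, hDJ.1]
    constructor
    · rintro ⟨z, hz, hzX, rfl⟩
      have hzN := hN x hx hz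
      exact ⟨z, hz, ZFSet.mem_inter.2 ⟨(ZFSet.mem_inter.1 hzX).1, hzN⟩, ih z hz hzN⟩
    · rintro ⟨z, hz, hzX, rfl⟩
      have hzN := hN x hx hz
      exact ⟨z, hz, ZFSet.mem_inter.2 ⟨(ZFSet.mem_inter.1 hzX).1, hNN hzN⟩, (ih z hz hzN).symm⟩

private theorem sd_core (hDK : T_DK) (hDL : T_DL) {X : V} {τ : Ordinal.{0}}
    (hz : ZFm (· ∈ LA ∅ τ)) (hel : ElSub (X ∩ LA ∅ τ) (LA ∅ τ)) (h0 : ∅ ∈ X) :
    ∃ (τ' : Ordinal.{0}) (f : V), ZFm (· ∈ LA ∅ τ') ∧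
      (∀ α : Ordinal.{0}, α.toZFSet ∈ LA ∅ τ' ↔ α < τ') ∧ IsElem (LA ∅ τ') (LA ∅ τ) f ∧
      (∀ y, y ∈ X ∩ LA ∅ τ ↔ ∃ u ∈ LA ∅ τ', app f u = y) ∧
      (∀ x ∈ X ∩ LA ∅ τ, clp (X ∩ LA ∅ τ) x ∈ LA ∅ τ' ∧ app f (clp (X ∩ LA ∅ τ) x) = x) ∧
      (∀ u ∈ LA ∅ τ', ∀ y, y ∈ u ↔ y ∈ LA ∅ τ' ∧ app f y ∈ app f u) ∧
      (∀ t : V, t.IsTransitive → t ⊆ X ∩ LA ∅ τ → ∀ u ∈ t,
        clp (X ∩ LA ∅ τ) u = u ∧ app f u = u) ∧
      (∀ u ∈ LA ∅ τ', ∃ x ∈ X ∩ LA ∅ τ, u = clp (X ∩ LA ∅ τ) x) := by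
  have hNtr : (LA ∅ τ).IsTransitive := fun x hx y hy => hz.trans x hx y hy
  have hN0 : ∅ ∈ LA ∅ τ := hz.mempty
  obtain ⟨f, h1, h2, h3, h4, h5, h6⟩ := hDK (LA ∅ τ) (X ∩ LA ∅ τ) hNtr ⟨∅, hN0⟩ hel
  have h00 : (∅ : V) ∈ X ∩ LA ∅ τ := ZFSet.mem_inter.2 ⟨h0, hN0⟩
  obtain ⟨e1, e2⟩ := h6 {∅} (by
    intro x hx y hy
    rw [ZFSet.mem_singleton] at hx
    rw [hx] at hy
    exact absurd hy (ZFSet.notMem_empty y)) (by
    intro x hx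
    rw [ZFSet.mem_singleton] at hx
    rw [hx]; exact h00) ∅ (ZFSet.mem_singleton.2 rfl)
  have h0P : (∅ : V) ∈ imS (X ∩ LA ∅ τ) fun x => clp (X ∩ LA ∅ τ) x :=
    mem_imS.2 ⟨∅, h00, e1⟩
  obtain ⟨τ', hP, hPz, hPo⟩ := hDL _ _ f ∅ τ h1 h2 ⟨∅, h0P⟩ hz h0P (by rw [e2])
  rw [hP] at h1 h3 h5 hPz hPo
  refine ⟨τ', f, hPz, hPo, h1, h3, ?_, h5, h6, ?_⟩
  · intro x hx
    refine ⟨?_, h4 x hx⟩
    rw [← hP]
    exact mem_imS.2 ⟨x, hx, rfl⟩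
  · intro u hu
    rw [← hP] at hu
    obtain ⟨x, hx, hxu⟩ := mem_imS.1 hu
    exact ⟨x, hx, hxu.symm⟩

private theorem ord_of_isOrd {x : V} (h : IsOrd x) : ∃ α : Ordinal.{0}, x = α.toZFSet := h

theorem pf_SD (hDJ : T_DJ) (hDK : T_DK) (hDL : T_DL) (hGH : T_GH) : T_SD := by
  classical
  intro D hD i C t s X δ hL
  obtain ⟨-, -, hG⟩ := hGH D hD
  have etr : (∅ : V).IsTransitive := fun x hx => absurd hx (ZFSet.notMem_empty x)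
  have hzt : ∀ n, ZFm (· ∈ LA ∅ (t n)) := fun n => (hL.cz n).1
  have hot : ∀ n, ∀ α : Ordinal.{0}, α.toZFSet ∈ LA ∅ (t n) ↔ α < t n := fun n => (hG _ (hzt n)).2.2
  have htm : StrictMono t := strictMono_nat_of_lt_succ fun n => (hL.cz n).2.1
  have hμθ : D.μ i < D.θ := (hD.sz.μκ i hL.iκ).trans (hD.grd.κχ.trans hD.grd.χθ)
  have hμt0 : D.μ i < t 0 := by
    rw [← hot 0]
    exact hL.pw _ ((hD.grd.ord _).2 hμθ) (ord_sub_Lh etr _).1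
  have hμt : ∀ n, D.μ i < t n := fun n => hμt0.trans_le (htm.monotone (Nat.zero_le n))
  have hCt0 : C ∈ LA ∅ (t 0) := by
    refine hL.pw C ?_ (fun x hx => (ord_sub_Lh etr _).1 (hL.sub hx))
    have h1 : C ∈ LA ∅ D.κ := hD.grd.zκ.trans _ hL.XM C hL.cX
    exact Lh_mono (hD.grd.κχ.trans hD.grd.χθ).le h1
  have hCt : ∀ n, C ∈ LA ∅ (t n) := fun n => Lh_mono (htm.monotone (Nat.zero_le n)) hCt0
  have h0γ : (∅ : V) ∈ LA ∅ (D.γ i) := (hD.sz.zγ i hL.iκ).mempty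
  have h0X : (∅ : V) ∈ X := hL.gX h0γ
  choose tb f hz ho hel him hcl hup hfix hsur using fun n =>
    sd_core hDK hDL (hzt n) (hL.el n) h0X
  -- ordinals below delta
  have hδX : ∀ n, δ.toZFSet ⊆ X ∩ LA ∅ (t n) := by
    intro n x hx
    obtain ⟨ξ, hξ, rfl⟩ := Ordinal.mem_toZFSet_iff.1 hx
    exact ZFSet.mem_inter.2 ⟨(hL.Xμ ξ (hξ.trans hL.δμ)).2 hξ, (hot n ξ).2 ((hξ.trans hL.δμ).trans (hμt n))⟩
  have hδtr : (δ.toZFSet : V).IsTransitive := (ZFSet.isOrdinal_toZFSet δ).isTransitive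
  have hγX : ∀ n, LA ∅ (D.γ i) ⊆ X ∩ LA ∅ (t n) := by
    intro n x hx
    exact ZFSet.mem_inter.2 ⟨hL.gX hx,
      Lh_mono ((hD.sz.γμ i hL.iκ).trans (hμt n)).le hx⟩
  have hfd : ∀ n, ∀ ξ < δ, clp (X ∩ LA ∅ (t n)) ξ.toZFSet = ξ.toZFSet ∧
      app (f n) ξ.toZFSet = ξ.toZFSet := fun n ξ hξ =>
    hfix n _ hδtr (hδX n) _ (Ordinal.toZFSet_mem_toZFSet_iff.2 hξ)
  have hmemδ : ∀ n, ∀ x ∈ X ∩ LA ∅ (t n), x ∈ (D.μ i).toZFSet → x ∈ δ.toZFSet := by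
    intro n x hx hxμ
    obtain ⟨ξ, hξ, rfl⟩ := Ordinal.mem_toZFSet_iff.1 hxμ
    exact Ordinal.toZFSet_mem_toZFSet_iff.2 ((hL.Xμ ξ hξ).1 (ZFSet.mem_inter.1 hx).1)
  have hμX : ∀ n, (D.μ i).toZFSet ∈ X ∩ LA ∅ (t n) := fun n =>
    ZFSet.mem_inter.2 ⟨hL.mX, (hot n _).2 (hμt n)⟩
  have hcX : ∀ n, C ∈ X ∩ LA ∅ (t n) := fun n => ZFSet.mem_inter.2 ⟨hL.cX, hCt n⟩
  have hsubμ : ∀ n, ∀ S ∈ X ∩ LA ∅ (t n), S ⊆ (D.μ i).toZFSet →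
      clp (X ∩ LA ∅ (t n)) S = S ∩ δ.toZFSet := by
    intro n S _ hSμ
    ext y
    rw [hDJ.1, ZFSet.mem_inter]
    constructor
    · rintro ⟨z, hz, hzX, rfl⟩
      have h1 := hmemδ n z hzX (hSμ hz)
      obtain ⟨ξ, hξ, rfl⟩ := Ordinal.mem_toZFSet_iff.1 h1
      rw [(hfd n ξ hξ).1]
      exact ⟨hz, h1⟩
    · rintro ⟨hy1, hy2⟩
      obtain ⟨ξ, hξ, rfl⟩ := Ordinal.mem_toZFSet_iff.1 hy2
      exact ⟨_, hy1, hδX n hy2, ((hfd n ξ hξ).1).symm⟩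
  have hcμ : ∀ n, clp (X ∩ LA ∅ (t n)) (D.μ i).toZFSet = δ.toZFSet := by
    intro n
    rw [hsubμ n _ (hμX n) (fun x hx => hx)]
    ext y
    rw [ZFSet.mem_inter]
    refine ⟨fun h => h.2, fun h => ⟨?_, h⟩⟩
    obtain ⟨ξ, hξ, rfl⟩ := Ordinal.mem_toZFSet_iff.1 h
    exact Ordinal.toZFSet_mem_toZFSet_iff.2 (hξ.trans hL.δμ)
  have hcC : ∀ n, clp (X ∩ LA ∅ (t n)) C = C ∩ δ.toZFSet := fun n => hsubμ n C (hcX n) hL.sub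
  -- ordinals correspond to ordinals
  have hordR : ∀ n, ∀ u ∈ LA ∅ (tb n), (IsOrd u ↔ IsOrd (app (f n) u)) := by
    intro n u hu
    have h1 : Dfb ZFm (fun _ v => IsOrd (v 0)) := Dfb.isOrd (Tm.var 0)
    exact aLED ZFm _ h1 (LA ∅ (tb n)) (LA ∅ (t n)) (f n) (hel n) (hz n) (hzt n)
      (fun _ => u) (fun _ => hu)
  have hfN : ∀ n, ∀ u ∈ LA ∅ (tb n), app (f n) u ∈ X ∩ LA ∅ (t n) := fun n u hu =>
    (him n _).2 ⟨u, hu, rfl⟩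
  have hfo : ∀ n, ∀ ξ < tb n, ∃ ζ < t n, app (f n) ξ.toZFSet = ζ.toZFSet := by
    intro n ξ hξ
    have h1 := (hordR n _ ((ho n ξ).2 hξ)).1 ⟨ξ, rfl⟩
    obtain ⟨ζ, hζ⟩ := ord_of_isOrd h1
    refine ⟨ζ, ?_, hζ⟩
    rw [← hot n, ← hζ]
    exact (ZFSet.mem_inter.1 (hfN n _ ((ho n ξ).2 hξ))).2
  -- the images of `t m`
  have hctm : ∀ m n, m < n → clp (X ∩ LA ∅ (t n)) (t m).toZFSet = (tb m).toZFSet := by
    intro m n hmn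
    have hNm : (LA ∅ (t m)).IsTransitive := fun x hx y hy => (hzt m).trans x hx y hy
    ext y
    rw [hDJ.1]
    constructor
    · rintro ⟨z, hzt', hzX, rfl⟩
      obtain ⟨ξ, hξ, rfl⟩ := Ordinal.mem_toZFSet_iff.1 hzt'
      have hξm : ξ.toZFSet ∈ LA ∅ (t m) := (hot m ξ).2 hξ
      have hξX : ξ.toZFSet ∈ X ∩ LA ∅ (t m) :=
        ZFSet.mem_inter.2 ⟨(ZFSet.mem_inter.1 hzX).1, hξm⟩
      rw [sd_clp hDJ hNm (show LA ∅ (t m) ⊆ LA ∅ (t n) from Lh_mono (htm hmn).le) _ hξm]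
      obtain ⟨h1, h2⟩ := hcl m _ hξX
      have h3 : IsOrd (clp (X ∩ LA ∅ (t m)) ξ.toZFSet) := by
        rw [hordR m _ h1, h2]
        exact ⟨ξ, rfl⟩
      obtain ⟨η, hη⟩ := ord_of_isOrd h3
      rw [hη] at h1 ⊢
      exact Ordinal.toZFSet_mem_toZFSet_iff.2 ((ho m η).1 h1)
    · intro hy
      obtain ⟨η, hη, rfl⟩ := Ordinal.mem_toZFSet_iff.1 hy
      obtain ⟨x, hx, hxe⟩ := hsur m _ ((ho m η).2 hη)
      obtain ⟨h1, h2⟩ := hcl m x hx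
      rw [← hxe] at h1 h2
      obtain ⟨ζ, hζ, hζe⟩ := hfo m η hη
      rw [hζe] at h2
      subst h2
      refine ⟨_, Ordinal.toZFSet_mem_toZFSet_iff.2 hζ, ?_, ?_⟩
      · exact ZFSet.mem_inter.2 ⟨(ZFSet.mem_inter.1 hx).1,
          Lh_mono (htm hmn).le (ZFSet.mem_inter.1 hx).2⟩
      · rw [sd_clp hDJ hNm (show LA ∅ (t m) ⊆ LA ∅ (t n) from Lh_mono (htm hmn).le) _
          ((hot m ζ).2 hζ)]
        exact hxe
  have htX : ∀ m n, m < n → (t m).toZFSet ∈ X ∩ LA ∅ (t n) := fun m n hmn =>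
    ZFSet.mem_inter.2 ⟨hL.tX m, (hot n _).2 (htm hmn)⟩
  have hftb : ∀ m n, m < n → app (f n) (tb m).toZFSet = (t m).toZFSet := by
    intro m n hmn
    have h1 := (hcl n _ (htX m n hmn)).2
    rwa [hctm m n hmn] at h1
  have htb : ∀ m n, m < n → tb m < tb n := by
    intro m n hmn
    have h1 := (hcl n _ (htX m n hmn)).1
    rw [hctm m n hmn] at h1
    exact (ho n _).1 h1
  refine ⟨tb, f, ?_, ?_⟩
  · intro n
    refine ⟨hz n, htb n (n + 1) (Nat.lt_succ_self n), ?_⟩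
    intro ρ hρ1 hρ2 hρz
    obtain ⟨ζ, hζ, hζe⟩ := hfo (n + 1) ρ hρ2
    have h1 : Dfb ZFm (fun _ v => ZFm (· ∈ LAS ∅ (v 0))) := Dfb.zfm (Tm.LAS Tm.empty (Tm.var 0))
    have h2 := (aLED ZFm _ h1 (LA ∅ (tb (n + 1))) (LA ∅ (t (n + 1))) (f (n + 1)) (hel (n + 1))
      (hz (n + 1)) (hzt (n + 1)) (fun _ => ρ.toZFSet) (fun _ => (ho (n + 1) ρ).2 hρ2)).1 (by
        show ZFm (· ∈ LAS ∅ ρ.toZFSet)
        rw [LAS_ord]
        exact hρz)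
    have h3 : ZFm (· ∈ LA ∅ ζ) := by
      have h4 : ZFm (· ∈ LAS ∅ (app (f (n + 1)) ρ.toZFSet)) := h2
      rw [hζe, LAS_ord] at h4
      exact h4
    have h4 : t n < ζ := by
      have h5 := ((hup (n + 1) ρ.toZFSet ((ho (n + 1) ρ).2 hρ2) (tb n).toZFSet).1
        (Ordinal.toZFSet_mem_toZFSet_iff.2 hρ1)).2
      rw [hftb n (n + 1) (Nat.lt_succ_self n), hζe] at h5
      exact Ordinal.toZFSet_mem_toZFSet_iff.1 h5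
    exact (hL.cz n).2.2 ζ h4 hζ h3
  · intro n
    refine ⟨?_, ?_, hel n, him n, ?_, fun ξ hξ => (hfd n ξ hξ).2, ?_, ?_, ?_, fun m hm => hftb m n hm⟩
    · refine le_of_forall_lt fun ξ hξ => ?_
      obtain ⟨ζ, hζ, hζe⟩ := hfo n ξ hξ
      have h1 := sd_rank (hup n) _ ((ho n ξ).2 hξ)
      rw [hζe, Ordinal.rank_toZFSet, Ordinal.rank_toZFSet] at h1
      exact h1.trans_lt hζ
    · have h1 := (hcl n _ (hμX n)).1
      rw [hcμ n] at h1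
      exact (ho n δ).1 h1
    · intro u hu
      obtain ⟨h1, h2⟩ := hfix n _ (fun x hx y hy => (hD.sz.zγ i hL.iκ).trans x hx y hy) (hγX n) u hu
      refine ⟨?_, h2⟩
      have h3 := (hcl n u (hγX n hu)).1
      rwa [h1] at h3
    · have h1 := (hcl n _ (hμX n)).2
      rwa [hcμ n] at h1
    · have h1 := (hcl n _ (hcX n)).1
      rwa [hcC n] at h1
    · have h1 := (hcl n _ (hcX n)).2
      rwa [hcC n] at h1

end CAA
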